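import Mathlib

/-!
# 3-neighbour bootstrap percolation on the strong product of two paths

The minimum size of a set of initially infected cells that fully infects the strong product of the
paths with `m` and `n` vertices in the 3-neighbour process is `3` as soon as `m, n ≥ 3`; it is `n`
for `m = 1` and `⌊n / 2⌋ + 2` for `m = 2`.
-/

set_option autoImplicit false

namespace Pool.Agent.Results.MP_87c242_co.StrongGridThreeH37

open Set

/-- The strong product of the paths with `m` and `n` vertices: two distinct cells are adjacent when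
their row numbers differ by at most `1` and their column numbers differ by at most `1`. -/
def strongGrid (m n : ℕ) : SimpleGraph (Fin m × Fin n) where
  Adj u v := u ≠ v ∧ |((u.1 : ℕ) : ℤ) - (v.1 : ℕ)| ≤ 1 ∧ |((u.2 : ℕ) : ℤ) - (v.2 : ℕ)| ≤ 1
  symm := ⟨fun u v h => ⟨h.1.symm, by rw [abs_sub_comm]; exact h.2.1, by
    rw [abs_sub_comm]; exact h.2.2⟩⟩
  loopless := ⟨fun _ h => h.1 rfl⟩

/-- One round of `r`-neighbour bootstrap percolation: the infected set `A` together with all the
vertices that have at least `r` neighbours in `A`. -/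
def round {V : Type} (G : SimpleGraph V) (r : ℕ) (A : Set V) : Set V :=
  A ∪ {v | r ≤ (G.neighborSet v ∩ A).ncard}

/-- `A` fully infects `G` in the `r`-neighbour process. -/
def FullyInfects {V : Type} (G : SimpleGraph V) (r : ℕ) (A : Set V) : Prop :=
  ⋃ t : ℕ, (round G r)^[t] A = univ

/-- The minimum size of a set that fully infects the strong product of the paths with `m` and `n`
vertices in the 3-neighbour process. -/
noncomputable def m3 (m n : ℕ) : ℕ :=
  sInf {k | ∃ A : Set (Fin m × Fin n), FullyInfects (strongGrid m n) 3 A ∧ A.ncard = k}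

theorem ncard_pair_le' {V : Type} (a b : V) : ({a, b} : Set V).ncard ≤ 2 := by
  have h := ncard_insert_le a ({b} : Set V)
  rw [ncard_singleton] at h
  exact h

section general

variable {V : Type} {G : SimpleGraph V} {r : ℕ} {A : Set V}

/-- the set of eventually infected vertices -/
def clos (G : SimpleGraph V) (r : ℕ) (A : Set V) : Set V := ⋃ t : ℕ, (round G r)^[t] A

theorem subset_round (B : Set V) : B ⊆ round G r B := fun _ h => Or.inl h

theorem iter_mono {s t : ℕ} (h : s ≤ t) : (round G r)^[s] A ⊆ (round G r)^[t] A := by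
  induction t, h using Nat.le_induction with
  | base => exact fun _ h => h
  | succ t _ ih =>
    rw [Function.iterate_succ_apply']
    exact ih.trans (subset_round _)

theorem subset_clos : A ⊆ clos G r A := fun _ h => mem_iUnion.2 ⟨0, h⟩

theorem mem_clos_of_three [Finite V] {v a b c : V} (ha : a ∈ clos G 3 A) (hb : b ∈ clos G 3 A)
    (hc : c ∈ clos G 3 A) (hva : G.Adj v a) (hvb : G.Adj v b) (hvc : G.Adj v c)
    (hab : a ≠ b) (hac : a ≠ c) (hbc : b ≠ c) : v ∈ clos G 3 A := by
  obtain ⟨s, hs⟩ := mem_iUnion.1 ha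
  obtain ⟨t, ht⟩ := mem_iUnion.1 hb
  obtain ⟨u, hu⟩ := mem_iUnion.1 hc
  refine mem_iUnion.2 ⟨max s (max t u) + 1, ?_⟩
  rw [Function.iterate_succ_apply']
  refine Or.inr ?_
  have h1 := iter_mono (G := G) (r := 3) (A := A) (le_max_left s (max t u)) hs
  have h2 := iter_mono (G := G) (r := 3) (A := A)
    ((le_max_left t u).trans (le_max_right s (max t u))) ht
  have h3 := iter_mono (G := G) (r := 3) (A := A)
    ((le_max_right t u).trans (le_max_right s (max t u))) hu
  have h4 : ({a, b, c} : Set V) ⊆ G.neighborSet v ∩ (round G 3)^[max s (max t u)] A := by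
    rintro x (rfl | rfl | rfl)
    · exact ⟨hva, h1⟩
    · exact ⟨hvb, h2⟩
    · exact ⟨hvc, h3⟩
  have h5 : ({a, b, c} : Set V).ncard = 3 := ncard_eq_three.2 ⟨a, b, c, hab, hac, hbc, rfl⟩
  have h6 := ncard_le_ncard h4 (toFinite _)
  rw [h5] at h6
  exact h6

/-- A set outside of which no vertex has `r` neighbours in it stays as it is. -/
theorem clos_subset {S : Set V} [Finite V] (hAS : A ⊆ S)
    (hS : ∀ v, v ∉ S → (G.neighborSet v ∩ S).ncard < r) : clos G r A ⊆ S := by
  have key : ∀ t : ℕ, (round G r)^[t] A ⊆ S := by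
    intro t
    induction t with
    | zero => exact hAS
    | succ t ih =>
      rw [Function.iterate_succ_apply']
      rintro v (h | h)
      · exact ih h
      · by_contra hv
        have h1 : (G.neighborSet v ∩ (round G r)^[t] A).ncard ≤ (G.neighborSet v ∩ S).ncard :=
          ncard_le_ncard (inter_subset_inter_right _ ih) (toFinite _)
        exact absurd (le_trans h h1) (not_le.2 (hS v hv))
  exact iUnion_subset key

theorem not_full {S : Set V} [Finite V] (hAS : A ⊆ S)
    (hS : ∀ v, v ∉ S → (G.neighborSet v ∩ S).ncard < r) (h : ∃ v, v ∉ S) :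
    ¬ FullyInfects G r A := by
  intro hf
  obtain ⟨v, hv⟩ := h
  have : v ∈ clos G r A := by
    show v ∈ ⋃ t : ℕ, (round G r)^[t] A
    rw [hf]
    exact mem_univ v
  exact hv (clos_subset hAS hS this)

end general

/-- adjacency in coordinates -/
theorem adj_iff {m n : ℕ} {u v : Fin m × Fin n} : (strongGrid m n).Adj u v ↔
    u ≠ v ∧ (u.1 : ℕ) ≤ v.1 + 1 ∧ (v.1 : ℕ) ≤ u.1 + 1 ∧ (u.2 : ℕ) ≤ v.2 + 1 ∧
      (v.2 : ℕ) ≤ u.2 + 1 := by
  show u ≠ v ∧ |((u.1 : ℕ) : ℤ) - (v.1 : ℕ)| ≤ 1 ∧ |((u.2 : ℕ) : ℤ) - (v.2 : ℕ)| ≤ 1 ↔ _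
  rw [abs_le, abs_le]
  constructor
  · rintro ⟨h, h1, h2⟩
    refine ⟨h, ?_, ?_, ?_, ?_⟩ <;> omega
  · rintro ⟨h, h1, h2, h3, h4⟩
    refine ⟨h, ⟨?_, ?_⟩, ?_, ?_⟩ <;> omega

section transpose

/-- The transposed percolation -/
theorem swap_full {m n : ℕ} {A : Set (Fin m × Fin n)} (h : FullyInfects (strongGrid m n) 3 A) :
    FullyInfects (strongGrid n m) 3 (Prod.swap '' A) := by
  have key : ∀ t : ℕ, (round (strongGrid n m) 3)^[t] (Prod.swap '' A) =
      Prod.swap '' ((round (strongGrid m n) 3)^[t] A) := by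
    intro t
    induction t with
    | zero => rfl
    | succ t ih =>
      rw [Function.iterate_succ_apply', Function.iterate_succ_apply', ih]
      generalize (round (strongGrid m n) 3)^[t] A = B
      have h1 : ∀ v : Fin m × Fin n, (strongGrid n m).neighborSet v.swap ∩ Prod.swap '' B =
          Prod.swap '' ((strongGrid m n).neighborSet v ∩ B) := by
        intro v
        ext w
        constructor
        · rintro ⟨h1, x, hx, rfl⟩
          refine ⟨x, ⟨?_, hx⟩, rfl⟩
          have h1' : (strongGrid n m).Adj v.swap x.swap := h1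
          show (strongGrid m n).Adj v x
          rw [adj_iff] at h1' ⊢
          obtain ⟨h2, h3, h4, h5, h6⟩ := h1'
          exact ⟨fun h => h2 (by rw [h]), h5, h6, h3, h4⟩
        · rintro ⟨x, ⟨hx1, hx2⟩, rfl⟩
          refine ⟨?_, x, hx2, rfl⟩
          have h1' : (strongGrid m n).Adj v x := hx1
          show (strongGrid n m).Adj v.swap x.swap
          rw [adj_iff] at h1' ⊢
          obtain ⟨h2, h3, h4, h5, h6⟩ := h1'
          exact ⟨fun h => h2 (Prod.swap_injective h), h5, h6, h3, h4⟩
      ext w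
      constructor
      · rintro (⟨x, hx, rfl⟩ | hw)
        · exact ⟨x, Or.inl hx, rfl⟩
        · refine ⟨w.swap, Or.inr ?_, Prod.swap_swap w⟩
          have h2 := h1 w.swap
          rw [Prod.swap_swap] at h2
          have h3 : 3 ≤ ((strongGrid n m).neighborSet w ∩ Prod.swap '' B).ncard := hw
          rw [h2, ncard_image_of_injective _ Prod.swap_injective] at h3
          exact h3
      · rintro ⟨x, hx | hx, rfl⟩
        · exact Or.inl ⟨x, hx, rfl⟩
        · refine Or.inr ?_
          show 3 ≤ ((strongGrid n m).neighborSet x.swap ∩ Prod.swap '' B).ncard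
          rw [h1 x, ncard_image_of_injective _ Prod.swap_injective]
          exact hx
  show ⋃ t : ℕ, (round (strongGrid n m) 3)^[t] (Prod.swap '' A) = univ
  simp only [key]
  rw [← image_iUnion]
  have h2 : ⋃ t : ℕ, (round (strongGrid m n) 3)^[t] A = univ := h
  rw [h2, image_univ]
  exact Prod.swap_surjective.range_eq

theorem m3_set_swap (m n : ℕ) :
    {k | ∃ A : Set (Fin m × Fin n), FullyInfects (strongGrid m n) 3 A ∧ A.ncard = k} =
    {k | ∃ A : Set (Fin n × Fin m), FullyInfects (strongGrid n m) 3 A ∧ A.ncard = k} := by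
  ext k
  constructor
  · rintro ⟨A, h1, h2⟩
    exact ⟨_, swap_full h1, by rw [ncard_image_of_injective _ Prod.swap_injective, h2]⟩
  · rintro ⟨A, h1, h2⟩
    exact ⟨_, swap_full h1, by rw [ncard_image_of_injective _ Prod.swap_injective, h2]⟩

theorem m3_swap (m n : ℕ) : m3 m n = m3 n m := by
  unfold m3
  rw [m3_set_swap]

end transpose

/-- computing the minimum from a lower bound and an example -/
theorem m3_eq {m n k : ℕ} (A : Set (Fin m × Fin n)) (hA : FullyInfects (strongGrid m n) 3 A)
    (hk : A.ncard ≤ k)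
    (hlow : ∀ B : Set (Fin m × Fin n), FullyInfects (strongGrid m n) 3 B → k ≤ B.ncard) :
    m3 m n = k := by
  apply le_antisymm
  · have h : m3 m n ≤ A.ncard := Nat.sInf_le ⟨A, hA, rfl⟩
    exact h.trans hk
  · refine le_csInf ⟨_, A, hA, rfl⟩ ?_
    rintro _ ⟨B, hB, rfl⟩
    exact hlow B hB

/-! ### One row -/

theorem m3_one (n : ℕ) : m3 1 n = n := by
  refine m3_eq univ ?_ ?_ ?_
  · exact univ_subset_iff.1 subset_clos
  · rw [ncard_univ, Nat.card_prod]
    simp
  · intro B hB
    by_contra hcon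
    push Not at hcon
    have hne : B ≠ univ := by
      rintro rfl
      rw [ncard_univ, Nat.card_prod] at hcon
      simp at hcon
    obtain ⟨v, hv⟩ := (ne_univ_iff_exists_notMem _).1 hne
    refine not_full (S := B) Subset.rfl ?_ ⟨v, hv⟩ hB
    intro w _
    have h1 : (strongGrid 1 n).neighborSet w ∩ B ⊆
        (fun w' : Fin 1 × Fin n => (w'.2 : ℕ)) ⁻¹' {(w.2 : ℕ) - 1, (w.2 : ℕ) + 1} := by
      rintro x ⟨hx, _⟩
      have hx' : (strongGrid 1 n).Adj w x := hx
      rw [adj_iff] at hx'
      obtain ⟨h1, _, _, h2, h3⟩ := hx'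
      have h4 : (w.2 : ℕ) ≠ x.2 := by
        intro h
        apply h1
        exact Prod.ext (Subsingleton.elim _ _) (Fin.ext h)
      simp only [mem_preimage, mem_insert_iff, mem_singleton_iff]
      omega
    have hinj : Function.Injective (fun w' : Fin 1 × Fin n => (w'.2 : ℕ)) := by
      intro a b hab
      exact Prod.ext (Subsingleton.elim _ _) (Fin.ext hab)
    have h2 : ((fun w' : Fin 1 × Fin n => (w'.2 : ℕ)) ⁻¹' {(w.2 : ℕ) - 1, (w.2 : ℕ) + 1}).ncard ≤
        2 := by
      rw [← ncard_image_of_injective _ hinj]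
      exact (ncard_le_ncard (image_preimage_subset _ _) (toFinite _)).trans (ncard_pair_le' _ _)
    have h3 := ncard_le_ncard h1 (toFinite _)
    omega

/-! ### At least three rows and columns -/

theorem m3_three {m n : ℕ} (hm : 3 ≤ m) (hn : 3 ≤ n) : m3 m n = 3 := by
  have row0 : ∀ j : ℕ, j < 3 → j < n := fun j hj => by omega
  set A : Set (Fin m × Fin n) := {(⟨0, by omega⟩, ⟨0, by omega⟩), (⟨0, by omega⟩, ⟨1, by omega⟩),
    (⟨0, by omega⟩, ⟨2, by omega⟩)} with hA
  refine m3_eq A ?_ ?_ ?_
  · -- columns 0, 1, 2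
    have mk : ∀ (v a b c : Fin m × Fin n), a ∈ clos (strongGrid m n) 3 A →
        b ∈ clos (strongGrid m n) 3 A → c ∈ clos (strongGrid m n) 3 A →
        (strongGrid m n).Adj v a → (strongGrid m n).Adj v b → (strongGrid m n).Adj v c →
        a ≠ b → a ≠ c → b ≠ c → v ∈ clos (strongGrid m n) 3 A :=
      fun v a b c ha hb hc h1 h2 h3 h4 h5 h6 => mem_clos_of_three ha hb hc h1 h2 h3 h4 h5 h6
    have three : ∀ i : ℕ, ∀ hi : i < m, ∀ j : ℕ, ∀ hj : j < 3,
        ((⟨i, hi⟩, ⟨j, by omega⟩) : Fin m × Fin n) ∈ clos (strongGrid m n) 3 A := by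
      intro i
      induction i with
      | zero =>
        intro hi j hj
        apply subset_clos
        rw [hA]
        interval_cases j <;> simp
      | succ i ih =>
        intro hi
        have h0 := ih (by omega) 0 (by omega)
        have h1 := ih (by omega) 1 (by omega)
        have h2 := ih (by omega) 2 (by omega)
        have g1 : ((⟨i + 1, hi⟩, ⟨1, by omega⟩) : Fin m × Fin n) ∈ clos (strongGrid m n) 3 A := by
          refine mk _ _ _ _ h0 h1 h2 ?_ ?_ ?_ ?_ ?_ ?_ <;>
            (simp [adj_iff, Prod.ext_iff] <;> omega)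
        have g0 : ((⟨i + 1, hi⟩, ⟨0, by omega⟩) : Fin m × Fin n) ∈ clos (strongGrid m n) 3 A := by
          refine mk _ _ _ _ h0 h1 g1 ?_ ?_ ?_ ?_ ?_ ?_ <;>
            (simp [adj_iff, Prod.ext_iff] <;> omega)
        have g2 : ((⟨i + 1, hi⟩, ⟨2, by omega⟩) : Fin m × Fin n) ∈ clos (strongGrid m n) 3 A := by
          refine mk _ _ _ _ h1 h2 g1 ?_ ?_ ?_ ?_ ?_ ?_ <;>
            (simp [adj_iff, Prod.ext_iff] <;> omega)
        intro j hj
        interval_cases j
        · exact g0
        · exact g1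
        · exact g2
    have all : ∀ j : ℕ, ∀ hj : j < n, ∀ i : ℕ, ∀ hi : i < m,
        ((⟨i, hi⟩, ⟨j, hj⟩) : Fin m × Fin n) ∈ clos (strongGrid m n) 3 A := by
      intro j
      induction j with
      | zero => intro hj i hi; exact three i hi 0 (by omega)
      | succ j ih =>
        intro hj
        have mid : ∀ i : ℕ, ∀ hi : i + 2 < m,
            ((⟨i + 1, by omega⟩, ⟨j + 1, hj⟩) : Fin m × Fin n) ∈ clos (strongGrid m n) 3 A := by
          intro i hi
          refine mk _ _ _ _ (ih (by omega) i (by omega)) (ih (by omega) (i + 1) (by omega))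
            (ih (by omega) (i + 2) (by omega)) ?_ ?_ ?_ ?_ ?_ ?_ <;>
            (simp [adj_iff, Prod.ext_iff] <;> omega)
        intro i hi
        rcases Nat.eq_zero_or_pos i with rfl | hpos
        · refine mk _ _ _ _ (ih (by omega) 0 (by omega)) (ih (by omega) 1 (by omega))
            (mid 0 (by omega)) ?_ ?_ ?_ ?_ ?_ ?_ <;>
            (simp [adj_iff, Prod.ext_iff] <;> omega)
        · obtain ⟨i, rfl⟩ : ∃ i', i = i' + 1 := ⟨i - 1, by omega⟩
          rcases Nat.lt_or_ge (i + 2) m with h | h
          · exact mid i h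
          · obtain ⟨i, rfl⟩ : ∃ i', i = i' + 1 := ⟨i - 1, by omega⟩
            refine mk _ _ _ _ (ih (by omega) (i + 1 + 1) (by omega))
              (ih (by omega) (i + 1) (by omega)) (mid i (by omega)) ?_ ?_ ?_ ?_ ?_ ?_ <;>
              (simp [adj_iff, Prod.ext_iff] <;> omega)
    refine univ_subset_iff.1 ?_
    rintro ⟨⟨i, hi⟩, ⟨j, hj⟩⟩ _
    exact all j hj i hi
  · have := ncard_insert_le ((⟨0, by omega⟩, ⟨0, by omega⟩) : Fin m × Fin n)
      {((⟨0, by omega⟩, ⟨1, by omega⟩) : Fin m × Fin n), (⟨0, by omega⟩, ⟨2, by omega⟩)}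
    have h2 := ncard_pair_le' ((⟨0, by omega⟩, ⟨1, by omega⟩) : Fin m × Fin n)
      (⟨0, by omega⟩, ⟨2, by omega⟩)
    rw [hA]
    omega
  · intro B hB
    by_contra hcon
    push Not at hcon
    have hne : B ≠ univ := by
      rintro rfl
      rw [ncard_univ, Nat.card_prod] at hcon
      simp only [Nat.card_eq_fintype_card, Fintype.card_fin] at hcon
      nlinarith
    obtain ⟨v, hv⟩ := (ne_univ_iff_exists_notMem _).1 hne
    refine not_full (S := B) Subset.rfl ?_ ⟨v, hv⟩ hB
    intro w _
    exact lt_of_le_of_lt (ncard_le_ncard inter_subset_right (toFinite _)) hcon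

/-! ### Two rows -/

section two

/-- The number of infected cells in column `j`. -/
noncomputable def col {n : ℕ} (B : Set (Fin 2 × Fin n)) (j : ℕ) : ℕ :=
  (B ∩ {v | (v.2 : ℕ) = j}).ncard

theorem ncard_eq_sum {n : ℕ} (B : Set (Fin 2 × Fin n)) :
    B.ncard = ∑ j ∈ Finset.range n, col B j := by
  classical
  have h1 : ∀ k : ℕ, (B ∩ {v | (v.2 : ℕ) < k}).ncard = ∑ j ∈ Finset.range k, col B j := by
    intro k
    induction k with
    | zero => simp
    | succ k ih =>
      rw [Finset.sum_range_succ, ← ih]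
      have : B ∩ {v | (v.2 : ℕ) < k + 1} = (B ∩ {v | (v.2 : ℕ) < k}) ∪ (B ∩ {v | (v.2 : ℕ) = k}) := by
        ext v
        simp only [mem_inter_iff, mem_ofPred_eq, mem_union]
        constructor
        · rintro ⟨h, h'⟩
          rcases Nat.lt_succ_iff_lt_or_eq.1 h' with h'' | h''
          · exact Or.inl ⟨h, h''⟩
          · exact Or.inr ⟨h, h''⟩
        · rintro (⟨h, h'⟩ | ⟨h, h'⟩)
          · exact ⟨h, by omega⟩
          · exact ⟨h, by omega⟩
      rw [this, ncard_union_eq _ (toFinite _) (toFinite _)]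
      · rfl
      · rw [disjoint_left]
        rintro v ⟨_, hv1⟩ ⟨_, hv2⟩
        simp only [mem_ofPred_eq] at hv1 hv2
        omega
  have h2 := h1 n
  have h3 : B ∩ {v | (v.2 : ℕ) < n} = B := by
    ext v
    simp only [mem_inter_iff, mem_ofPred_eq, and_iff_left_iff_imp]
    intro _
    exact v.2.isLt
  rw [h3] at h2
  exact h2

theorem col_pos {n : ℕ} {B : Set (Fin 2 × Fin n)} {v : Fin 2 × Fin n} (hv : v ∈ B) :
    1 ≤ col B v.2 :=
  (ncard_pos (toFinite _)).2 ⟨v, hv, rfl⟩

theorem col_le_two {n : ℕ} (B : Set (Fin 2 × Fin n)) (j : ℕ) : col B j ≤ 2 := by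
  have hinj : ∀ a ∈ B ∩ {v : Fin 2 × Fin n | (v.2 : ℕ) = j}, ∀ b ∈ B ∩ {v | (v.2 : ℕ) = j},
      Prod.fst a = Prod.fst b → a = b := by
    rintro a ⟨_, ha⟩ b ⟨_, hb⟩ hab
    exact Prod.ext hab (Fin.ext (ha.trans hb.symm))
  have h1 : (B ∩ {v : Fin 2 × Fin n | (v.2 : ℕ) = j}).ncard ≤ (univ : Set (Fin 2)).ncard :=
    ncard_le_ncard_of_injOn Prod.fst (fun _ _ => mem_univ _)
      (fun a ha b hb hab => hinj a ha b hb hab) (toFinite _)
  have h2 : (univ : Set (Fin 2)).ncard = 2 := by
    rw [ncard_univ]; simp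
  rw [h2] at h1
  exact h1

/-- Counting neighbours: at most the numbers of infected cells in the three columns. -/
theorem nbrs_le {n : ℕ} (B : Set (Fin 2 × Fin n)) (v : Fin 2 × Fin n) :
    ((strongGrid 2 n).neighborSet v ∩ B).ncard ≤
      (if (v.2 : ℕ) = 0 then 0 else col B (v.2 - 1)) + col B v.2 + col B (v.2 + 1) := by
  classical
  split_ifs with h0
  · have h1 : (strongGrid 2 n).neighborSet v ∩ B ⊆
        (B ∩ {w | (w.2 : ℕ) = v.2}) ∪ (B ∩ {w | (w.2 : ℕ) = v.2 + 1}) := by
      rintro w ⟨hw, hwB⟩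
      have hw' : (strongGrid 2 n).Adj v w := hw
      rw [adj_iff] at hw'
      obtain ⟨_, _, _, h3, h4⟩ := hw'
      rcases Nat.lt_or_ge (v.2 : ℕ) w.2 with h | h
      · exact Or.inr ⟨hwB, by simp only [mem_ofPred_eq]; omega⟩
      · exact Or.inl ⟨hwB, by simp only [mem_ofPred_eq]; omega⟩
    have h2 := (ncard_le_ncard h1 (toFinite _)).trans (ncard_union_le _ _)
    unfold col
    omega
  · have h1 : (strongGrid 2 n).neighborSet v ∩ B ⊆
        ((B ∩ {w | (w.2 : ℕ) = v.2 - 1}) ∪ (B ∩ {w | (w.2 : ℕ) = v.2})) ∪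
          (B ∩ {w | (w.2 : ℕ) = v.2 + 1}) := by
      rintro w ⟨hw, hwB⟩
      have hw' : (strongGrid 2 n).Adj v w := hw
      rw [adj_iff] at hw'
      obtain ⟨_, _, _, h3, h4⟩ := hw'
      rcases Nat.lt_trichotomy (v.2 : ℕ) w.2 with h | h | h
      · exact Or.inr ⟨hwB, by simp only [mem_ofPred_eq]; omega⟩
      · exact Or.inl (Or.inr ⟨hwB, by simp only [mem_ofPred_eq]; omega⟩)
      · exact Or.inl (Or.inl ⟨hwB, by simp only [mem_ofPred_eq]; omega⟩)
    have h2 := (ncard_le_ncard h1 (toFinite _)).trans (ncard_union_le _ _)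
    have h3 := ncard_union_le (B ∩ {w : Fin 2 × Fin n | (w.2 : ℕ) = v.2 - 1})
      (B ∩ {w | (w.2 : ℕ) = v.2})
    unfold col
    omega

/-- Sequences without two adjacent zeros whose ends are positive. -/
theorem seq_bound (x : ℕ → ℕ) (l : ℕ) : ∀ k : ℕ, 1 ≤ x l → 1 ≤ x (l + k) →
    (∀ j, l ≤ j → j < l + k → 1 ≤ x j + x (j + 1)) →
    k + 2 ≤ 2 * ∑ j ∈ Finset.range (k + 1), x (l + j) := by
  intro k
  induction k using Nat.strong_induction_on with
  | _ k ih =>
    intro h1 h2 h3
    rcases k with _ | _ | k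
    · simp only [zero_add, Finset.sum_range_one, add_zero]
      omega
    · rw [Finset.sum_range_succ, Finset.sum_range_one]
      simp only [add_zero, zero_add] at h2 ⊢
      omega
    · rw [Finset.sum_range_succ]
      rcases Nat.eq_zero_or_pos (x (l + (k + 1))) with h0 | h0
      · have h4 := h3 (l + k) (by omega) (by omega)
        have h5 : 1 ≤ x (l + k) := by
          have : l + k + 1 = l + (k + 1) := by omega
          rw [this, h0] at h4
          omega
        have h6 := ih k (by omega) h1 h5 (fun j hj hj' => h3 j hj (by omega))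
        rw [Finset.sum_range_succ]
        have h7 : 1 ≤ x (l + (k + 2)) := h2
        omega
      · have h6 := ih (k + 1) (by omega) h1 h0 (fun j hj hj' => h3 j hj (by omega))
        have h7 : 1 ≤ x (l + (k + 2)) := h2
        have h8 : ∑ j ∈ Finset.range (k + 1 + 1), x (l + j) = ∑ j ∈ Finset.range (k + 2), x (l + j) :=
          rfl
        omega

theorem sum_split (f : ℕ → ℕ) {n j : ℕ} (hj : j + 2 < n) : ∑ i ∈ Finset.range n, f i =
    ∑ i ∈ Finset.range (j + 1), f (0 + i) + f (j + 1) +
      ∑ i ∈ Finset.range (n - 1 - (j + 2) + 1), f (j + 2 + i) := by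
  obtain ⟨k, rfl⟩ : ∃ k, n = (j + 2) + (k + 1) := ⟨n - 1 - (j + 2), by omega⟩
  have h1 : j + 2 + (k + 1) - 1 - (j + 2) + 1 = k + 1 := by omega
  rw [h1, Finset.sum_range_add, Finset.sum_range_succ]
  simp only [zero_add]

theorem lower_two {n : ℕ} (hn : 1 ≤ n) (B : Set (Fin 2 × Fin n))
    (hB : FullyInfects (strongGrid 2 n) 3 B) : n / 2 + 2 ≤ B.ncard := by
  classical
  by_contra hcon
  push Not at hcon
  -- no two adjacent empty columns
  have hS : ∀ J : Set ℕ, (∃ j ∈ J, j < n) → (∀ j ∈ J, col B j = 0) →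
      (∀ j ∈ J, ∀ hj : j < n, (if j = 0 then 0 else if (j - 1) ∈ J then 0 else 2) +
        (if j + 1 ∈ J ∨ n ≤ j + 1 then 0 else 2) < 3) → False := by
    intro J hJ1 hJ2 hJ3
    set S : Set (Fin 2 × Fin n) := {v | (v.2 : ℕ) ∉ J} with hSdef
    refine not_full (S := S) ?_ ?_ ?_ hB
    · intro v hv
      rw [hSdef]
      intro hj
      have := hJ2 _ hj
      have h2 := col_pos hv
      omega
    · intro v hv
      have hvJ : (v.2 : ℕ) ∈ J := by
        by_contra h
        exact hv h
      have h1 := nbrs_le S v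
      have h2 : col S v.2 = 0 := by
        unfold col
        rw [ncard_eq_zero (toFinite _)]
        ext w
        simp only [hSdef, mem_inter_iff, mem_ofPred_eq, mem_empty_iff_false, iff_false, not_and]
        intro h3 h4
        rw [h4] at h3
        exact h3 hvJ
      have h3 := hJ3 _ hvJ v.2.isLt
      have h4 : (if (v.2 : ℕ) = 0 then 0 else col S (v.2 - 1)) ≤
          (if (v.2 : ℕ) = 0 then 0 else if ((v.2 : ℕ) - 1) ∈ J then 0 else 2) := by
        split_ifs with h5 h6
        · exact le_rfl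
        · have : col S ((v.2 : ℕ) - 1) = 0 := by
            unfold col
            rw [ncard_eq_zero (toFinite _)]
            ext w
            simp only [hSdef, mem_inter_iff, mem_ofPred_eq, mem_empty_iff_false, iff_false, not_and]
            intro h7 h8
            rw [h8] at h7
            exact h7 h6
          omega
        · exact col_le_two _ _
      have h5 : col S (v.2 + 1) ≤ (if (v.2 : ℕ) + 1 ∈ J ∨ n ≤ v.2 + 1 then 0 else 2) := by
        split_ifs with h5
        · have : col S ((v.2 : ℕ) + 1) = 0 := by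
            unfold col
            rw [ncard_eq_zero (toFinite _)]
            ext w
            simp only [hSdef, mem_inter_iff, mem_ofPred_eq, mem_empty_iff_false, iff_false, not_and]
            intro h7 h8
            rcases h5 with h5 | h5
            · rw [h8] at h7
              exact h7 h5
            · have := w.2.isLt
              omega
          omega
        · exact col_le_two _ _
      omega
    · obtain ⟨j, hj, hjn⟩ := hJ1
      exact ⟨(0, ⟨j, hjn⟩), fun h => h hj⟩
  have hadj : ∀ j, j + 1 < n → 1 ≤ col B j + col B (j + 1) := by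
    intro j hj
    by_contra h
    push Not at h
    refine hS {j, j + 1} ⟨j, by simp, by omega⟩ ?_ ?_
    · rintro i (rfl | rfl) <;> omega
    · rintro i (rfl | rfl) hi
      · have : (i + 1 ∈ ({i, i + 1} : Set ℕ)) := by simp
        simp only [this, true_or, if_true]
        split_ifs <;> omega
      · have : (j + 1 - 1 ∈ ({j, j + 1} : Set ℕ)) := by simp
        simp only [this, if_true]
        split_ifs <;> omega
  have hfirst : 1 ≤ col B 0 := by
    by_contra h
    push Not at h
    refine hS {0} ⟨0, rfl, by omega⟩ ?_ ?_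
    · rintro i rfl; omega
    · rintro i rfl hi
      simp only [if_true]
      split_ifs <;> omega
  have hlast : 1 ≤ col B (n - 1) := by
    by_contra h
    push Not at h
    refine hS {n - 1} ⟨n - 1, rfl, by omega⟩ ?_ ?_
    · rintro i rfl; omega
    · rintro i rfl hi
      have : n - 1 + 1 ∈ ({n - 1} : Set ℕ) ∨ n ≤ n - 1 + 1 := Or.inr (by omega)
      simp only [this, if_true]
      split_ifs <;> omega
  have hsum := ncard_eq_sum B
  -- all columns have at most one infected cell
  have hone : ∀ j, j < n → col B j ≤ 1 := by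
    intro j hj
    by_contra h
    push Not at h
    set x : ℕ → ℕ := fun i => if i = j then 1 else col B i with hx
    have h1 := seq_bound x 0 (n - 1) (by
      simp only [hx]; split_ifs <;> omega) (by
      simp only [hx, zero_add]; split_ifs <;> omega) (by
      intro i _ hi
      have := hadj i (by omega)
      simp only [hx]; split_ifs <;> omega)
    have h2 : n - 1 + 1 = n := by omega
    rw [h2] at h1
    simp only [zero_add] at h1
    have h3 : ∑ i ∈ Finset.range n, x i + (col B j - 1) = ∑ i ∈ Finset.range n, col B i := by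
      rw [← Finset.add_sum_erase _ _ (Finset.mem_range.2 hj),
        ← Finset.add_sum_erase _ (fun i => col B i) (Finset.mem_range.2 hj)]
      have h4 : ∑ i ∈ (Finset.range n).erase j, x i = ∑ i ∈ (Finset.range n).erase j, col B i := by
        apply Finset.sum_congr rfl
        intro i hi
        simp only [hx]
        rw [if_neg (Finset.ne_of_mem_erase hi)]
      rw [h4]
      simp only [hx, if_true]
      omega
    omega
  -- no three consecutive nonempty columns
  have hthree : ∀ j, j + 2 < n → ¬ (1 ≤ col B j ∧ 1 ≤ col B (j + 1) ∧ 1 ≤ col B (j + 2)) := by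
    rintro j hj ⟨h1, h2, h3⟩
    have h4 := seq_bound (col B) 0 j hfirst (by simpa using h1)
      (fun i _ hi => hadj i (by omega))
    have h5 := seq_bound (col B) (j + 2) (n - 1 - (j + 2)) h3 (by
      have : j + 2 + (n - 1 - (j + 2)) = n - 1 := by omega
      rw [this]; exact hlast) (fun i _ hi => hadj i (by omega))
    have h6 := sum_split (col B) hj
    omega
  -- now nothing happens
  have hexists : ∃ v, v ∉ B := by
    by_contra h
    push Not at h
    have h1 : B = univ := eq_univ_of_forall h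
    rw [h1, ncard_univ, Nat.card_prod] at hcon
    simp only [Nat.card_eq_fintype_card, Fintype.card_fin] at hcon
    have h2 : col B 0 = 2 := by
      rw [h1]
      unfold col
      have : (univ : Set (Fin 2 × Fin n)) ∩ {v | (v.2 : ℕ) = 0} =
          (fun i : Fin 2 => (i, (⟨0, by omega⟩ : Fin n))) '' univ := by
        ext w
        simp only [univ_inter, mem_ofPred_eq, image_univ, mem_range]
        constructor
        · intro hw
          exact ⟨w.1, Prod.ext rfl (Fin.ext hw.symm)⟩
        · rintro ⟨i, rfl⟩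
          rfl
      rw [this, ncard_image_of_injective, ncard_univ]
      · simp
      · intro a b hab
        exact (Prod.ext_iff.1 hab).1
    have h3 := hone 0 (by omega)
    omega
  refine not_full (S := B) Subset.rfl ?_ hexists hB
  intro v hv
  have h1 := nbrs_le B v
  have hlt := v.2.isLt
  have hcolge : ∀ j, n ≤ j → col B j = 0 := by
    intro j hj
    unfold col
    rw [ncard_eq_zero (toFinite _)]
    ext w
    simp only [mem_inter_iff, mem_ofPred_eq, mem_empty_iff_false, iff_false, not_and]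
    intro _ h8
    have := w.2.isLt
    omega
  have h2 := hone v.2 hlt
  have h3 : col B (v.2 + 1) ≤ 1 := by
    rcases Nat.lt_or_ge ((v.2 : ℕ) + 1) n with h | h
    · exact hone _ h
    · rw [hcolge _ h]; omega
  split_ifs at h1 with h0
  · omega
  · have h4 := hone (v.2 - 1) (by omega)
    rcases Nat.lt_or_ge ((v.2 : ℕ) + 1) n with h | h
    · have h5 := hthree (v.2 - 1) (by omega)
      have h6 : (v.2 : ℕ) - 1 + 1 = v.2 := by omega
      have h7 : (v.2 : ℕ) - 1 + 2 = v.2 + 1 := by omega
      rw [h6, h7] at h5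
      omega
    · rw [hcolge _ h] at h1
      omega

theorem upper_two {n : ℕ} (hn : 1 ≤ n) :
    ∃ A : Set (Fin 2 × Fin n), FullyInfects (strongGrid 2 n) 3 A ∧ A.ncard ≤ n / 2 + 2 := by
  classical
  set A : Set (Fin 2 × Fin n) := {v | ((v.1 : ℕ) = 0 ∧ ((v.2 : ℕ) % 2 = 0 ∨ (v.2 : ℕ) = n - 1)) ∨
    ((v.1 : ℕ) = 1 ∧ (v.2 : ℕ) = 0)} with hA
  refine ⟨A, ?_, ?_⟩
  · have mk : ∀ (v a b c : Fin 2 × Fin n), a ∈ clos (strongGrid 2 n) 3 A →
        b ∈ clos (strongGrid 2 n) 3 A → c ∈ clos (strongGrid 2 n) 3 A →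
        (strongGrid 2 n).Adj v a → (strongGrid 2 n).Adj v b → (strongGrid 2 n).Adj v c →
        a ≠ b → a ≠ c → b ≠ c → v ∈ clos (strongGrid 2 n) 3 A :=
      fun v a b c ha hb hc h1 h2 h3 h4 h5 h6 => mem_clos_of_three ha hb hc h1 h2 h3 h4 h5 h6
    have all : ∀ j : ℕ, ∀ hj : j < n,
        ((0, ⟨j, hj⟩) : Fin 2 × Fin n) ∈ clos (strongGrid 2 n) 3 A ∧
        ((1, ⟨j, hj⟩) : Fin 2 × Fin n) ∈ clos (strongGrid 2 n) 3 A := by
      intro j
      induction j with
      | zero =>
        intro hj
        refine ⟨subset_clos ?_, subset_clos ?_⟩ <;> simp [hA]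
      | succ j ih =>
        intro hj
        obtain ⟨h0, h1⟩ := ih (by omega)
        have g0 : ((0, ⟨j + 1, hj⟩) : Fin 2 × Fin n) ∈ clos (strongGrid 2 n) 3 A := by
          by_cases hj2 : (j + 1) % 2 = 0 ∨ j + 1 = n - 1
          · apply subset_clos
            simp only [hA, mem_ofPred_eq]
            left
            exact ⟨rfl, hj2⟩
          · push Not at hj2
            have h2 : ((0, ⟨j + 2, by omega⟩) : Fin 2 × Fin n) ∈ clos (strongGrid 2 n) 3 A := by
              apply subset_clos
              simp only [hA, mem_ofPred_eq]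
              left
              exact ⟨rfl, Or.inl (by omega)⟩
            refine mk _ _ _ _ h0 h1 h2 ?_ ?_ ?_ ?_ ?_ ?_ <;>
              (simp [adj_iff, Prod.ext_iff] <;> omega)
        refine ⟨g0, ?_⟩
        refine mk _ _ _ _ h0 h1 g0 ?_ ?_ ?_ ?_ ?_ ?_ <;>
              (simp [adj_iff, Prod.ext_iff] <;> omega)
    refine univ_subset_iff.1 ?_
    rintro ⟨i, ⟨j, hj⟩⟩ _
    fin_cases i
    · exact (all j hj).1
    · exact (all j hj).2
  · -- counting
    set T : Finset ℕ := (Finset.range (n / 2 + 1)).image (fun k => 2 * k) ∪ {n - 1} with hT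
    have hsub : A ⊆ insert ((1, ⟨0, by omega⟩) : Fin 2 × Fin n)
        ((fun k : ℕ => ((0, ⟨min (2 * k) (n - 1), by omega⟩) : Fin 2 × Fin n)) ''
          (Finset.range (n / 2 + 1) : Set ℕ)) := by
      rintro ⟨i, ⟨j, hj⟩⟩ hv
      simp only [hA, mem_ofPred_eq] at hv
      rcases hv with ⟨h1, h2⟩ | ⟨h1, h2⟩
      · right
        rcases h2 with h2 | h2
        · refine ⟨j / 2, ?_, ?_⟩
          · simp only [Finset.coe_range, mem_Iio]; omega
          · refine Prod.ext (Fin.ext h1.symm) (Fin.ext ?_)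
            show min (2 * (j / 2)) (n - 1) = j
            omega
        · refine ⟨n / 2, ?_, ?_⟩
          · simp only [Finset.coe_range, mem_Iio]; omega
          · refine Prod.ext (Fin.ext h1.symm) (Fin.ext ?_)
            show min (2 * (n / 2)) (n - 1) = j
            omega
      · left
        exact Prod.ext (Fin.ext h1) (Fin.ext h2)
    have h1 := ncard_le_ncard hsub (toFinite _)
    have h2 := ncard_insert_le ((1, ⟨0, by omega⟩) : Fin 2 × Fin n)
      ((fun k : ℕ => ((0, ⟨min (2 * k) (n - 1), by omega⟩) : Fin 2 × Fin n)) ''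
          (Finset.range (n / 2 + 1) : Set ℕ))
    have h3 : ((fun k : ℕ => ((0, ⟨min (2 * k) (n - 1), by omega⟩) : Fin 2 × Fin n)) ''
          (Finset.range (n / 2 + 1) : Set ℕ)).ncard ≤ n / 2 + 1 := by
      refine (ncard_image_le (Finset.finite_toSet _)).trans ?_
      rw [ncard_coe_finset, Finset.card_range]
    omega

theorem m3_two {n : ℕ} (hn : 1 ≤ n) : m3 2 n = n / 2 + 2 := by
  obtain ⟨A, h1, h2⟩ := upper_two hn
  exact m3_eq A h1 h2 (fun B hB => lower_two hn B hB)

end two

/-- **The value of `m_3(m, n)` for all `m, n ≥ 1`.** -/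
theorem result : ∀ m n : ℕ, 1 ≤ m → 1 ≤ n →
    m3 m n = if m = 1 then n else if n = 1 then m else
      if m = 2 then n / 2 + 2 else if n = 2 then m / 2 + 2 else 3 := by
  intro m n hm hn
  split_ifs with h1 h2 h3 h4
  · rw [h1, m3_one]
  · rw [h2, m3_swap, m3_one]
  · rw [h3, m3_two hn]
  · rw [h4, m3_swap, m3_two hm]
  · exact m3_three (by omega) (by omega)

end Pool.Agent.Results.MP_87c242_co.StrongGridThreeH37
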